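import Mathlib

set_option autoImplicit false

/-!
# Sequences with a given phase and a polynomial lower bound
-/

namespace Pool.Agent.V11171.PP

open Finset Filter Topology

/-- the phase `- exp (3 π i / N)` -/
noncomputable def ph (N : ℕ) : ℂ := -Complex.exp (3 * Real.pi * Complex.I / N)

lemma norm_ph (N : ℕ) : ‖ph N‖ = 1 := by
  unfold ph
  rw [norm_neg]
  have : (3 * Real.pi * Complex.I / N : ℂ) = ((3 * Real.pi / N : ℝ) : ℂ) * Complex.I := by
    push_cast; ring
  rw [this, Complex.norm_exp_ofReal_mul_I]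

lemma ph_ne (N : ℕ) : ph N ≠ 0 := by
  intro h
  have := norm_ph N
  rw [h, norm_zero] at this
  exact one_ne_zero this.symm

lemma ph_tend : Tendsto ph atTop (𝓝 (-1)) := by
  unfold ph
  have h1 : Tendsto (fun N : ℕ => (3 * Real.pi * Complex.I / N : ℂ)) atTop (𝓝 0) := by
    have := (tendsto_inv_atTop_nhds_zero_nat (𝕜 := ℂ)).const_mul (3 * Real.pi * Complex.I)
    rw [mul_zero] at this
    exact this
  have h2 := ((Complex.continuous_exp.tendsto 0).comp h1).neg
  rw [Complex.exp_zero] at h2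
  exact h2

/-- `J N` is `ph N` times a real number `≥ - N^3` -/
def Pal (J : ℕ → ℂ) : Prop := ∀ N : ℕ, 1 ≤ N → ∃ t : ℝ, J N = ph N * t ∧ -((N : ℝ) ^ 3) ≤ t

variable {J : ℕ → ℂ}

lemma Pal.big (h : Pal J) {N : ℕ} (hN : 1 ≤ N) (hb : (N : ℝ) ^ 3 < ‖J N‖) : J N = ph N * ‖J N‖ := by
  obtain ⟨t, h1, h2⟩ := h N hN
  have h3 : ‖J N‖ = |t| := by
    rw [h1, norm_mul, norm_ph, one_mul, Complex.norm_real, Real.norm_eq_abs]
  have h4 : 0 ≤ t := by
    by_contra hc
    rw [not_le] at hc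
    rw [h3, abs_of_neg hc] at hb
    linarith
  rw [h3, abs_of_nonneg h4]
  exact h1

lemma log_div_tendsto : Tendsto (fun N : ℕ => Real.log N / (N : ℝ)) atTop (𝓝 0) :=
  (Real.isLittleO_log_id_atTop.tendsto_div_nhds_zero).comp tendsto_natCast_atTop_atTop

lemma big_of_growth {φ : ℕ → ℕ} (hφ : Tendsto φ atTop atTop) {V : ℝ} (hV : 0 < V)
    (h : Tendsto (fun k => 2 * Real.pi * (Real.log ‖J (φ k)‖ / φ k)) atTop (𝓝 V)) :
    ∀ᶠ k in atTop, ((φ k : ℕ) : ℝ) ^ 3 < ‖J (φ k)‖ := by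
  have h1 : Tendsto (fun k => 2 * Real.pi * (3 * (Real.log (φ k) / (φ k : ℝ)))) atTop (𝓝 0) := by
    have := (((log_div_tendsto.comp hφ).const_mul 3).const_mul (2 * Real.pi))
    simpa using this
  filter_upwards [h.eventually (lt_mem_nhds hV), h1.eventually_lt h hV,
    hφ.eventually_ge_atTop 1] with k h0 h2 h3
  have hk : (1 : ℝ) ≤ (φ k : ℝ) := by exact_mod_cast h3
  have hk0 : (0 : ℝ) < (φ k : ℝ) := by linarith
  have hpi := Real.pi_pos
  have h4 : 3 * (Real.log (φ k) / (φ k : ℝ)) < Real.log ‖J (φ k)‖ / φ k :=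
    lt_of_mul_lt_mul_left h2 (by positivity)
  have h5 : 3 * Real.log (φ k) < Real.log ‖J (φ k)‖ := by
    rw [mul_div_assoc', div_lt_div_iff_of_pos_right hk0] at h4
    exact h4
  have h6 : 0 < ‖J (φ k)‖ := by
    rcases (norm_nonneg (J (φ k))).lt_or_eq with h | h
    · exact h
    · rw [← h, Real.log_zero, zero_div, mul_zero] at h0
      exact absurd h0 (lt_irrefl _)
  have h7 : Real.log ((φ k : ℝ) ^ 3) < Real.log ‖J (φ k)‖ := by
    rw [Real.log_pow]; push_cast; exact h5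
  exact (Real.log_lt_log_iff (by positivity) h6).1 h7

lemma big_of_ratio {a b : ℕ} (ha : 1 ≤ a) {c : ℝ} (hc : 1 < c)
    (h : Tendsto (fun k => ‖J (a * (k + 1) + b)‖ / ‖J (a * k + b)‖) atTop (𝓝 c)) :
    ∀ᶠ k in atTop, ((a * k + b : ℕ) : ℝ) ^ 3 < ‖J (a * k + b)‖ := by
  obtain ⟨r, hr1, hr2⟩ := exists_between hc
  obtain ⟨K, hK⟩ := eventually_atTop.1 (h.eventually (lt_mem_nhds hr2))
  have hr0 : 0 < r := by linarith
  have hpos : ∀ k, K ≤ k → 0 < ‖J (a * k + b)‖ := by
    intro k hk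
    rcases (norm_nonneg (J (a * k + b))).lt_or_eq with h1 | h1
    · exact h1
    · have := hK k hk
      rw [← h1, div_zero] at this
      linarith
  have hstep : ∀ k, K ≤ k → r * ‖J (a * k + b)‖ ≤ ‖J (a * (k + 1) + b)‖ := by
    intro k hk
    exact ((lt_div_iff₀ (hpos k hk)).1 (hK k hk)).le
  have hlow : ∀ j : ℕ, r ^ j * ‖J (a * K + b)‖ ≤ ‖J (a * (K + j) + b)‖ := by
    intro j
    induction j with
    | zero => simp
    | succ j ih =>
      calc r ^ (j + 1) * ‖J (a * K + b)‖ = r * (r ^ j * ‖J (a * K + b)‖) := by ring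
        _ ≤ r * ‖J (a * (K + j) + b)‖ := mul_le_mul_of_nonneg_left ih hr0.le
        _ ≤ _ := hstep (K + j) (by omega)
  set C : ℝ := ‖J (a * K + b)‖ / r ^ K with hC
  have hC0 : 0 < C := div_pos (hpos K le_rfl) (by positivity)
  have hlow2 : ∀ k, K ≤ k → C * r ^ k ≤ ‖J (a * k + b)‖ := by
    intro k hk
    obtain ⟨j, rfl⟩ := Nat.exists_eq_add_of_le hk
    refine le_trans (le_of_eq ?_) (hlow j)
    rw [hC, pow_add]
    field_simp
  have h0 : Tendsto (fun k : ℕ => ((a : ℝ) + b) ^ 3 * ((k : ℝ) ^ 3 / r ^ k)) atTop (𝓝 0) := by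
    have := (tendsto_pow_const_div_const_pow_of_one_lt 3 hr1).const_mul (((a : ℝ) + b) ^ 3)
    simpa using this
  filter_upwards [h0.eventually (gt_mem_nhds hC0), eventually_ge_atTop K,
    eventually_ge_atTop 1] with k h1 h2 h3
  refine lt_of_lt_of_le ?_ (hlow2 k h2)
  have hk : (1 : ℝ) ≤ (k : ℝ) := by exact_mod_cast h3
  have hab : ((a * k + b : ℕ) : ℝ) ≤ ((a : ℝ) + b) * k := by
    push_cast
    have hb : (b : ℝ) ≤ b * k := le_mul_of_one_le_right (by positivity) hk
    nlinarith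
  have h4 : ((a * k + b : ℕ) : ℝ) ^ 3 ≤ (((a : ℝ) + b) * k) ^ 3 :=
    pow_le_pow_left₀ (by positivity) hab 3
  have hrk : 0 < r ^ k := by positivity
  have h5 : (((a : ℝ) + b) * k) ^ 3 < C * r ^ k := by
    have h6 : ((a : ℝ) + b) ^ 3 * ((k : ℝ) ^ 3 / r ^ k) * r ^ k < C * r ^ k :=
      mul_lt_mul_of_pos_right h1 hrk
    have h7 : ((a : ℝ) + b) ^ 3 * ((k : ℝ) ^ 3 / r ^ k) * r ^ k = (((a : ℝ) + b) * k) ^ 3 := by
      field_simp
    linarith
  linarith

lemma lin_tend {a b : ℕ} (ha : 1 ≤ a) : Tendsto (fun k : ℕ => a * k + b) atTop atTop := by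
  refine tendsto_atTop_mono (fun k => ?_) tendsto_id
  simp only [id]
  nlinarith

/-- the ratios converge to `c > 1` iff their absolute values do -/
theorem Pal.ratio_iff (h : Pal J) {a b : ℕ} (ha : 1 ≤ a) {c : ℝ} (hc : 1 < c) :
    Tendsto (fun k => J (a * (k + 1) + b) / J (a * k + b)) atTop (𝓝 (c : ℂ)) ↔
      Tendsto (fun k => ‖J (a * (k + 1) + b)‖ / ‖J (a * k + b)‖) atTop (𝓝 c) := by
  constructor
  · intro h1
    have h2 := h1.norm
    rw [Complex.norm_real, Real.norm_of_nonneg (by linarith)] at h2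
    refine h2.congr fun k => ?_
    rw [norm_div]
  · intro h1
    have hb := big_of_ratio ha hc h1
    have hb1 : ∀ᶠ k in atTop, ((a * (k + 1) + b : ℕ) : ℝ) ^ 3 < ‖J (a * (k + 1) + b)‖ :=
      (tendsto_add_atTop_nat 1).eventually hb
    have hp : Tendsto (fun k => ph (a * (k + 1) + b) / ph (a * k + b)) atTop (𝓝 1) := by
      have h3 := ph_tend.comp (lin_tend (b := b) ha)
      have h4 := h3.comp (tendsto_add_atTop_nat 1)
      have h5 := h4.div h3 (by norm_num)
      rw [div_self (by norm_num)] at h5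
      exact h5
    have h6 : Tendsto (fun k => ph (a * (k + 1) + b) / ph (a * k + b) *
        ((‖J (a * (k + 1) + b)‖ / ‖J (a * k + b)‖ : ℝ) : ℂ)) atTop (𝓝 (1 * (c : ℂ))) :=
      hp.mul ((Complex.continuous_ofReal.tendsto c).comp h1)
    rw [one_mul] at h6
    refine h6.congr' ?_
    filter_upwards [hb, hb1, eventually_ge_atTop 1] with k h7 h8 h9
    have e1 := h.big (N := a * k + b) (by nlinarith) h7
    have e2 := h.big (N := a * (k + 1) + b) (by nlinarith) h8
    have hne := ph_ne (a * k + b)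
    have hJ : (‖J (a * k + b)‖ : ℂ) ≠ 0 := by
      have : 0 < ‖J (a * k + b)‖ := lt_of_le_of_lt (by positivity) h7
      exact_mod_cast this.ne'
    conv_rhs => rw [e1, e2]
    push_cast
    field_simp

/-- a limit of the ratios of absolute value `> 1` is real and positive -/
theorem Pal.ratio_real (h : Pal J) {a b : ℕ} (ha : 1 ≤ a) {z : ℂ} (hz : 1 < ‖z‖)
    (h1 : Tendsto (fun k => J (a * (k + 1) + b) / J (a * k + b)) atTop (𝓝 z)) :
    z = (‖z‖ : ℂ) := by
  have h2 : Tendsto (fun k => ‖J (a * (k + 1) + b)‖ / ‖J (a * k + b)‖) atTop (𝓝 ‖z‖) := by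
    refine h1.norm.congr fun k => ?_
    rw [norm_div]
  exact tendsto_nhds_unique h1 ((h.ratio_iff ha hz).2 h2)

/-- the logarithmic form -/
theorem Pal.log_iff (h : Pal J) {a b : ℕ} (ha : 1 ≤ a) {V : ℝ} (hV : 0 < V) :
    Tendsto (fun k => (Real.pi : ℂ) * Complex.log (J (a * (k + 1) + b) / J (a * k + b))) atTop
      (𝓝 (V : ℂ)) ↔
    Tendsto (fun k => Real.pi * Real.log (‖J (a * (k + 1) + b)‖ / ‖J (a * k + b)‖)) atTop (𝓝 V) := by
  have hpi := Real.pi_pos
  constructor
  · intro h1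
    have h2 := (Complex.continuous_re.tendsto _).comp h1
    rw [Complex.ofReal_re] at h2
    refine h2.congr fun k => ?_
    simp only [Function.comp]
    rw [Complex.re_ofReal_mul, Complex.log_re, norm_div]
  · intro h1
    have h2 : Tendsto (fun k => Real.log (‖J (a * (k + 1) + b)‖ / ‖J (a * k + b)‖)) atTop
        (𝓝 (V / Real.pi)) := by
      have := h1.const_mul (Real.pi⁻¹)
      have e : Real.pi⁻¹ * V = V / Real.pi := by ring
      rw [e] at this
      refine this.congr fun k => ?_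
      field_simp
    have hVp : 0 < V / Real.pi := by positivity
    have h3 : Tendsto (fun k => ‖J (a * (k + 1) + b)‖ / ‖J (a * k + b)‖) atTop
        (𝓝 (Real.exp (V / Real.pi))) := by
      have := (Real.continuous_exp.tendsto _).comp h2
      refine this.congr' ?_
      filter_upwards [h2.eventually (lt_mem_nhds hVp)] with k hk
      simp only [Function.comp]
      rw [Real.exp_log]
      have h0 : 0 ≤ ‖J (a * (k + 1) + b)‖ / ‖J (a * k + b)‖ := by positivity
      rcases h0.lt_or_eq with h4 | h4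
      · exact h4
      · rw [← h4, Real.log_zero] at hk
        exact absurd hk (lt_irrefl _)
    have h4 := (h.ratio_iff ha (Real.one_lt_exp_iff.2 hVp)).2 h3
    have h5 : ContinuousAt Complex.log ((Real.exp (V / Real.pi) : ℝ) : ℂ) :=
      continuousAt_clog (Complex.ofReal_mem_slitPlane.2 (Real.exp_pos _))
    have h6 := (h5.tendsto.comp h4).const_mul (Real.pi : ℂ)
    rw [← Complex.ofReal_log (Real.exp_pos _).le, Real.log_exp, ← Complex.ofReal_mul] at h6
    have e : Real.pi * (V / Real.pi) = V := by field_simp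
    rw [e] at h6
    exact h6

/-- growth and logarithms -/
theorem growth_clog {φ : ℕ → ℕ} (hφ : Tendsto φ atTop atTop) (V : ℝ) :
    Tendsto (fun k => ((2 * Real.pi / φ k : ℝ) : ℂ) * Complex.log (J (φ k))) atTop (𝓝 (V : ℂ)) ↔
      Tendsto (fun k => 2 * Real.pi * (Real.log ‖J (φ k)‖ / φ k)) atTop (𝓝 V) := by
  have hI : Tendsto (fun k => ((2 * Real.pi / φ k * Complex.arg (J (φ k)) : ℝ) : ℂ) * Complex.I)
      atTop (𝓝 0) := by
    have h1 : Tendsto (fun k => 2 * Real.pi * Real.pi * ((φ k : ℕ) : ℝ)⁻¹) atTop (𝓝 0) := by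
      have := ((tendsto_inv_atTop_nhds_zero_nat (𝕜 := ℝ)).comp hφ).const_mul
        (2 * Real.pi * Real.pi)
      rw [mul_zero] at this
      exact this
    refine squeeze_zero_norm (fun k => ?_) h1
    rw [norm_mul, Complex.norm_I, mul_one, Complex.norm_real, Real.norm_eq_abs, abs_mul]
    have h2 : |Complex.arg (J (φ k))| ≤ Real.pi := Complex.abs_arg_le_pi _
    have h3 : |2 * Real.pi / (φ k : ℝ)| = 2 * Real.pi * ((φ k : ℕ) : ℝ)⁻¹ := by
      rw [abs_of_nonneg (by positivity)]; ring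
    rw [h3]
    calc 2 * Real.pi * ((φ k : ℕ) : ℝ)⁻¹ * |Complex.arg (J (φ k))|
        ≤ 2 * Real.pi * ((φ k : ℕ) : ℝ)⁻¹ * Real.pi :=
          mul_le_mul_of_nonneg_left h2 (by positivity)
      _ = _ := by ring
  have e : ∀ k, ((2 * Real.pi / φ k : ℝ) : ℂ) * Complex.log (J (φ k)) =
      ((2 * Real.pi * (Real.log ‖J (φ k)‖ / φ k) : ℝ) : ℂ) +
        ((2 * Real.pi / φ k * Complex.arg (J (φ k)) : ℝ) : ℂ) * Complex.I := by
    intro k
    rw [Complex.log]
    push_cast
    ring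
  constructor
  · intro h
    have h2 := (Complex.continuous_re.tendsto _).comp h
    rw [Complex.ofReal_re] at h2
    refine h2.congr fun k => ?_
    simp only [Function.comp]
    rw [Complex.re_ofReal_mul, Complex.log_re]
    ring
  · intro h
    have h2 := ((Complex.continuous_ofReal.tendsto V).comp h).add hI
    rw [add_zero] at h2
    exact h2.congr fun k => (e k).symm

lemma pos_iff {x : ℕ → ℝ} {V : ℝ} (hV : 0 < V) :
    Tendsto (fun N => max 0 (x N)) atTop (𝓝 V) ↔ Tendsto x atTop (𝓝 V) := by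
  constructor
  · intro h
    refine h.congr' ?_
    filter_upwards [h.eventually (lt_mem_nhds hV)] with N hN
    rcases le_total 0 (x N) with h1 | h1
    · exact max_eq_right h1
    · rw [max_eq_left h1] at hN
      exact absurd hN (lt_irrefl _)
  · intro h
    have := (continuous_const.max continuous_id : Continuous fun t : ℝ => max 0 t).tendsto V
    rw [max_eq_right hV.le] at this
    exact this.comp h

/-- transfer of the growth along a sequence -/
theorem growth_iff {φ : ℕ → ℕ} (hφ : Tendsto φ atTop atTop) {x y : ℕ → ℝ} {n : ℕ} (hn : 1 ≤ n)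
    (hxy : ∀ N : ℕ, 1 ≤ N → |max 0 (x N) - n * max 0 (y N)| ≤
      3 * (n + 1) * Real.log N + n * Real.log 2) {V : ℝ} (hV : 0 < V) :
    Tendsto (fun k => 2 * Real.pi * (x (φ k) / φ k)) atTop (𝓝 (n * V)) ↔
      Tendsto (fun k => 2 * Real.pi * (y (φ k) / φ k)) atTop (𝓝 V) := by
  have hnR : (0 : ℝ) < n := by exact_mod_cast hn
  rw [← pos_iff (by positivity : 0 < (n : ℝ) * V), ← pos_iff hV]
  have hm : ∀ (z : ℕ → ℝ) (k : ℕ), max 0 (2 * Real.pi * (z (φ k) / φ k)) =
      2 * Real.pi / φ k * max 0 (z (φ k)) := by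
    intro z k
    have h : 0 ≤ 2 * Real.pi / (φ k : ℝ) := by positivity
    rw [mul_max_of_nonneg _ _ h, mul_zero]
    congr 1
    ring
  have hlim : Tendsto (fun k => 2 * Real.pi * (3 * (n + 1) * (Real.log (φ k) / (φ k : ℝ)) +
      n * Real.log 2 * (((φ k : ℕ) : ℝ)⁻¹))) atTop (𝓝 0) := by
    have := ((((log_div_tendsto.comp hφ)).const_mul (3 * ((n : ℝ) + 1))).add
      (((tendsto_inv_atTop_nhds_zero_nat (𝕜 := ℝ)).comp hφ).const_mul
        (n * Real.log 2))).const_mul (2 * Real.pi)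
    simpa using this
  have h : Tendsto (fun k => max 0 (2 * Real.pi * (x (φ k) / φ k)) -
      n * max 0 (2 * Real.pi * (y (φ k) / φ k))) atTop (𝓝 0) := by
    refine squeeze_zero_norm' ?_ hlim
    filter_upwards [hφ.eventually_ge_atTop 1] with k hk
    have hk0 : (0 : ℝ) < (φ k : ℝ) := by exact_mod_cast hk
    rw [Real.norm_eq_abs, hm, hm]
    have e : 2 * Real.pi / (φ k : ℝ) * max 0 (x (φ k)) -
        n * (2 * Real.pi / (φ k : ℝ) * max 0 (y (φ k))) =
        2 * Real.pi / (φ k : ℝ) * (max 0 (x (φ k)) - n * max 0 (y (φ k))) := by ring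
    rw [e, abs_mul, abs_of_nonneg (by positivity : 0 ≤ 2 * Real.pi / (φ k : ℝ))]
    refine (mul_le_mul_of_nonneg_left (hxy _ hk) (by positivity)).trans (le_of_eq ?_)
    field_simp
  constructor
  · intro h1
    have h2 := (h1.sub h).const_mul ((n : ℝ)⁻¹)
    have e : ((n : ℝ)⁻¹) * (n * V - 0) = V := by field_simp; ring
    rw [e] at h2
    refine h2.congr fun N => ?_
    field_simp
    ring
  · intro h1
    have h2 := h.add (h1.const_mul (n : ℝ))
    rw [zero_add] at h2
    refine h2.congr fun N => ?_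
    ring

/-- convergence in `ℂ / i π² ℤ` -/
def ConvMod (x : ℕ → ℂ) (z : ℂ) : Prop :=
  ∃ m : ℕ → ℤ, Tendsto (fun k => x k + Complex.I * Real.pi ^ 2 * m k) atTop (𝓝 z)

theorem Pal.convMod (h : Pal J) {a b : ℕ} (ha : 1 ≤ a) {V C : ℝ} (hV : 0 < V)
    (h1 : ConvMod (fun k => (Real.pi : ℂ) * Complex.log (J (a * (k + 1) + b) / J (a * k + b)))
      (V + Complex.I * C)) :
    Tendsto (fun k => (Real.pi : ℂ) * Complex.log (J (a * (k + 1) + b) / J (a * k + b))) atTop
      (𝓝 (V : ℂ)) ∧ ∃ m : ℤ, C = Real.pi ^ 2 * m := by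
  obtain ⟨m, hm⟩ := h1
  have hre : Tendsto (fun k => Real.pi * Real.log (‖J (a * (k + 1) + b)‖ / ‖J (a * k + b)‖)) atTop
      (𝓝 V) := by
    have h2 := (Complex.continuous_re.tendsto _).comp hm
    have e : (V + Complex.I * C : ℂ).re = V := by simp
    rw [e] at h2
    refine h2.congr fun k => ?_
    simp only [Function.comp]
    have e2 : (Complex.I * (Real.pi : ℂ) ^ 2 * (m k : ℂ)).re = 0 := by
      have : (Complex.I * (Real.pi : ℂ) ^ 2 * (m k : ℂ)) =
          ((Real.pi ^ 2 * (m k : ℝ) : ℝ) : ℂ) * Complex.I := by push_cast; ring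
      rw [this, Complex.re_ofReal_mul, Complex.I_re, mul_zero]
    rw [Complex.add_re, e2, add_zero, Complex.re_ofReal_mul, Complex.log_re, norm_div]
  have hlog := (h.log_iff ha hV).2 hre
  refine ⟨hlog, ?_⟩
  have h3 := hm.sub hlog
  have h4 : Tendsto (fun k => ((m k : ℤ) : ℝ)) atTop (𝓝 (C / Real.pi ^ 2)) := by
    have h5 := ((Complex.continuous_im.tendsto _).comp h3).const_mul ((Real.pi ^ 2)⁻¹)
    have e : (Real.pi ^ 2)⁻¹ * (V + Complex.I * C - V : ℂ).im = C / Real.pi ^ 2 := by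
      simp
      ring
    rw [e] at h5
    refine h5.congr fun k => ?_
    simp only [Function.comp]
    have e2 : (Real.pi : ℂ) * Complex.log (J (a * (k + 1) + b) / J (a * k + b)) +
        Complex.I * Real.pi ^ 2 * m k -
        (Real.pi : ℂ) * Complex.log (J (a * (k + 1) + b) / J (a * k + b)) =
        ((Real.pi ^ 2 * (m k : ℝ) : ℝ) : ℂ) * Complex.I := by push_cast; ring
    rw [e2]
    have e3 : (((Real.pi ^ 2 * (m k : ℝ) : ℝ) : ℂ) * Complex.I).im = Real.pi ^ 2 * (m k : ℝ) := by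
      rw [Complex.im_ofReal_mul, Complex.I_im, mul_one]
    rw [e3]
    field_simp
  have h6 : C / Real.pi ^ 2 ∈ Set.range ((↑) : ℤ → ℝ) :=
    Int.isClosedEmbedding_coe_real.isClosed_range.mem_of_tendsto h4
      (Eventually.of_forall fun k => ⟨m k, rfl⟩)
  obtain ⟨j, hj⟩ := h6
  refine ⟨j, ?_⟩
  rw [hj]
  field_simp

end Pool.Agent.V11171.PP
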