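import Pool.Agent.W719.BX.GeoN
import Pool.Agent.W715.VC.Base
import Pool.Agent.W715.VC.Base2
import Pool.Agent.W715.VC.Growth
import Pool.Agent.H112R4.VL.B
import Pool.Agent.H112R4.VL.D
import Pool.Agent.H8R3.VL.TaskC
import Pool.Agent.H180R3.EV.Quant
import Pool.Agent.H776R3.EvenVol.TaskL

set_option autoImplicit false

/-!
# The growth for `u = s_1^A`, `A = 1, 2` and `A ≥ 4` (from the starting library)
-/

namespace Pool.Agent.V11171.PP

open Finset Filter Topology Pool.Agent.W715.VC

lemma wpow_one' (w : List (ℕ × Bool)) : wpow w 1 = w := by simp [wpow]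

theorem base_growth {A : ℕ} (hA : 1 ≤ A) (hA3 : A ≠ 3) : ∃ V : ℝ, 0 < V ∧
    Tendsto (fun N : ℕ => 2 * Real.pi / N *
      Real.log ‖(rep3 N (wpow (List.replicate A (0, true) ++
        dual (List.replicate A (0, true))) 1)).trace‖) atTop (𝓝 V) := by
  have hpos6 : 0 < GapVol.lob (Real.pi / 6) := by
    have h1 : 0 < 2 / Real.pi * GapVol.lob (Real.pi / 6) := Pool.Agent.H180R3.EV.V4_pos
    exact (mul_pos_iff_of_pos_left (div_pos two_pos Real.pi_pos)).1 h1
  rcases Nat.lt_or_ge A 4 with h | h
  · interval_cases A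
    · refine ⟨8 * GapVol.lob (Real.pi / 6), by positivity, ?_⟩
      refine (Pool.Agent.H112R4.VL.taskD Pool.Agent.H112R4.VL.taskB
        Pool.Agent.H8R3.VL.taskC).congr' ?_
      filter_upwards [eventually_gt_atTop 0] with N hN
      have h4 : List.replicate 1 ((0, true) : ℕ × Bool) ++
          dual (List.replicate 1 (0, true)) = [(0, true), (1, false)] := rfl
      rw [wpow_one', h4, trace_base hN, Complex.norm_real, Real.norm_eq_abs, abs_of_nonneg]
      exact Finset.sum_nonneg (fun n _ => by positivity)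
    · have h4p : 0 < GapVol.lob (Real.pi / 4) := EvenVol.LobIneq.lob_four_pos
      refine ⟨16 * GapVol.lob (Real.pi / 4), by positivity, ?_⟩
      refine tr2_growth.congr' ?_
      filter_upwards [eventually_gt_atTop 0] with N hN
      have h4 : List.replicate 2 ((0, true) : ℕ × Bool) ++
          dual (List.replicate 2 (0, true)) =
          [(0, true), (0, true)] ++ dual [(0, true), (0, true)] := rfl
      rw [wpow_one', h4, trace_two hN, Complex.norm_real, Real.norm_eq_abs, abs_of_nonneg]
      · rfl
      · exact Finset.sum_nonneg (fun n _ => by positivity)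
    · exact absurd rfl hA3
  · obtain ⟨V, _, h2, h3⟩ := Pool.Agent.W719.BX.mainN h le_rfl
    refine ⟨V, ?_, h3⟩
    have : 0 < ((1 : ℕ) : ℝ) * (20 * GapVol.lob (Real.pi / 6)) := by positivity
    linarith

end Pool.Agent.V11171.PP
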