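import Pool.Agent.W715.VC.Limit
import Pool.Agent.W715.VC.Base

set_option autoImplicit false

/-!
# The phase of the Kashaev invariants of the palindromic 3-braids with axis

For `B = rep3 N (u ū)` all eigenvalues are positive or of absolute value `1` (`eig_main`), and `B` is
self-adjoint for the form `Hf`, so that the traces of its powers are real and at least `- N^3`.
-/

namespace Pool.Agent.V11171.PP

open Finset Filter Topology Pool.Agent.W715.VC

variable {N : ℕ}

lemma dual_append (a b : List (ℕ × Bool)) : dual (a ++ b) = dual b ++ dual a := by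
  simp [dual]

lemma dual_dual {u : List (ℕ × Bool)} (hu : ∀ l ∈ u, l.1 < 2) : dual (dual u) = u := by
  unfold dual
  rw [List.map_reverse, List.reverse_reverse, List.map_map]
  conv_rhs => rw [← List.map_id u]
  refine List.map_congr_left fun l hl => ?_
  have := hu l hl
  simp only [Function.comp, dl, Bool.not_not, id]
  ext
  · simp only; omega
  · rfl

lemma dual_pal {u : List (ℕ × Bool)} (hu : ∀ l ∈ u, l.1 < 2) : dual (u ++ dual u) = u ++ dual u := by
  rw [dual_append, dual_dual hu]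

lemma dual_lt (u : List (ℕ × Bool)) : ∀ l ∈ dual u, l.1 < 2 := by
  intro l hl
  unfold dual at hl
  rw [List.mem_reverse, List.mem_map] at hl
  obtain ⟨a, _, rfl⟩ := hl
  simp only [dl]
  omega

lemma trace_hadj (A : M3 N) : (hadj A).trace = (starRingEnd ℂ) A.trace := by
  unfold Matrix.trace
  rw [map_sum, ← Equiv.sum_comp (rvE N)]
  refine sum_congr rfl fun p _ => ?_
  simp only [Matrix.diag_apply, hadj]
  change (starRingEnd ℂ) (A (rv (rv p)) (rv (rv p))) = _
  rw [rv_rv]

lemma hadj_pow {A : M3 N} (h : hadj A = A) (n : ℕ) : hadj (A ^ n) = A ^ n := by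
  induction n with
  | zero => rw [pow_zero, hadj_one]
  | succ n ih => rw [pow_succ, hadj_mul, ih, h, ← pow_succ']; rfl

lemma hadj_pal (hN : 0 < N) {u : List (ℕ × Bool)} (hu : ∀ l ∈ u, l.1 < 2) :
    hadj (rep3 N (u ++ dual u)) = rep3 N (u ++ dual u) := by
  rw [hadj_rep3 hN, dual_pal hu]
  intro l hl
  rcases List.mem_append.1 hl with h | h
  · exact hu l h
  · exact dual_lt u l h

/-- the traces are real and at least `- N^3` -/
theorem trace_real (hN : 0 < N) {u : List (ℕ × Bool)} (hu : ∀ l ∈ u, l.1 < 2) (n : ℕ) :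
    ∃ t : ℝ, (rep3 N (wpow (u ++ dual u) n)).trace = t ∧ -((N : ℝ) ^ 3) ≤ t := by
  have hr : (starRingEnd ℂ) (rep3 N (wpow (u ++ dual u) n)).trace =
      (rep3 N (wpow (u ++ dual u) n)).trace := by
    rw [rep3_wpow, ← trace_hadj, hadj_pow (hadj_pal hN hu)]
  obtain ⟨t, ht⟩ := Complex.conj_eq_iff_real.1 hr
  refine ⟨t, ht, ?_⟩
  have hcard : ∀ B : M3 N, B.charpoly.roots.card = N ^ 3 := fun B => by
    rw [card_roots' B]
    simp only [I3, Fintype.card_prod, Fintype.card_fin]
    ring
  have e : t = ((rep3 N (wpow (u ++ dual u) n)).trace).re := by rw [ht, Complex.ofReal_re]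
  rw [e, rep3_wpow]
  rcases Nat.eq_zero_or_pos n with rfl | hn
  · rw [pow_zero, Matrix.trace_one]
    have h1 : (0 : ℝ) ≤ (N : ℝ) ^ 3 := by positivity
    have h2 : ((Fintype.card (I3 N) : ℂ)).re = (Fintype.card (I3 N) : ℝ) := by
      rw [Complex.natCast_re]
    rw [h2]
    have h3 : (0 : ℝ) ≤ (Fintype.card (I3 N) : ℝ) := by positivity
    linarith
  · rw [trace_pow _ (by omega : n ≠ 0)]
    have h := re_sum_ge (rep3 N (u ++ dual u)).charpoly.roots (fun a ha => ?_) n
    · rw [hcard] at h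
      push_cast at h
      exact h
    · obtain ⟨m, hm⟩ := eig_of_root (good_rep3 _) ha
      exact eig_main hN hu hm

lemma phase (hN : 0 < N) : rt N ^ (-3 * ((N : ℤ) - 1)) = -Complex.exp (3 * Real.pi * Complex.I / N) := by
  have h0 := rt_ne N
  have e1 : -3 * ((N : ℤ) - 1) = (N : ℤ) * (-3) + 3 := by ring
  rw [e1, zpow_add₀ h0, _root_.zpow_mul, rt_zpow_N hN]
  have e2 : ((-1 : ℂ)) ^ (-3 : ℤ) = -1 := by norm_num
  rw [e2]
  have e3 : rt N ^ (3 : ℤ) = Complex.exp (3 * Real.pi * Complex.I / N) := by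
    unfold rt
    rw [← Complex.exp_int_mul]
    congr 1
    push_cast
    ring
  rw [e3]
  ring

/-- the phase of the Kashaev invariants -/
theorem cjones_phase (hN : 0 < N) {u : List (ℕ × Bool)} (hu : ∀ l ∈ u, l.1 < 2) (n : ℕ) :
    ∃ t : ℝ, Pool.Agent.H550R3.Jones.cjones N 3 (axisClosure (wpow (u ++ dual u) n)) (rt N) =
      -Complex.exp (3 * Real.pi * Complex.I / N) * t ∧ -((N : ℝ) ^ 3) ≤ t := by
  obtain ⟨t, h1, h2⟩ := trace_real hN hu n
  exact ⟨t, by rw [cjones_axis hN, phase hN, h1], h2⟩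

end Pool.Agent.V11171.PP
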