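import Pool.Agent.V11171.PP.Ana

set_option autoImplicit false

/-!
# The phases of the ratios of a large sequence with a given phase tend to one
-/

namespace Pool.Agent.V11171.PP

open Finset Filter Topology

variable {J : ℕ → ℂ}

lemma Pal.ne_of_big (h : Pal J) {φ : ℕ → ℕ} (hφ : Tendsto φ atTop atTop)
    (hb : ∀ᶠ k in atTop, ((φ k : ℕ) : ℝ) ^ 3 < ‖J (φ k)‖) :
    ∀ᶠ k in atTop, J (φ k) ≠ 0 ∧ J (φ k) = ph (φ k) * ‖J (φ k)‖ := by
  filter_upwards [hb, hφ.eventually_ge_atTop 1] with k hk hk1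
  refine ⟨?_, h.big hk1 hk⟩
  intro h0
  rw [h0, norm_zero] at hk
  have : (0 : ℝ) ≤ (((φ k : ℕ) : ℝ)) ^ 3 := by positivity
  linarith

/-- the phases of the ratios tend to `1` -/
theorem Pal.phase_tend (h : Pal J) {φ : ℕ → ℕ} (hφ : Tendsto φ atTop atTop)
    (hb : ∀ᶠ k in atTop, ((φ k : ℕ) : ℝ) ^ 3 < ‖J (φ k)‖) :
    Tendsto (fun k : ℕ => J (φ (k + 1)) / J (φ k) / (‖J (φ (k + 1)) / J (φ k)‖ : ℂ))
      atTop (𝓝 1) := by
  have h2 := h.ne_of_big hφ hb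
  have hp : Tendsto (fun k => ph (φ (k + 1)) / ph (φ k)) atTop (𝓝 1) := by
    have h3 := ph_tend.comp hφ
    have h4 := h3.comp (tendsto_add_atTop_nat 1)
    have h5 := h4.div h3 (by norm_num)
    rw [div_self (by norm_num)] at h5
    exact h5
  refine hp.congr' ?_
  filter_upwards [h2, (tendsto_add_atTop_nat 1).eventually h2] with N e1 e2
  have n1 : (‖J (φ N)‖ : ℂ) ≠ 0 := by exact_mod_cast (norm_ne_zero_iff.2 e1.1)
  have n2 : (‖J (φ (N + 1))‖ : ℂ) ≠ 0 := by exact_mod_cast (norm_ne_zero_iff.2 e2.1)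
  have n3 := ph_ne (φ N)
  rw [norm_div]
  push_cast
  generalize hx : (‖J (φ N)‖ : ℂ) = x at *
  generalize hy : (‖J (φ (N + 1))‖ : ℂ) = y at *
  rw [e1.2, e2.2]
  field_simp

/-- the imaginary parts of the logarithms of the ratios tend to `0` -/
theorem Pal.log_im_tend (h : Pal J) {φ : ℕ → ℕ} (hφ : Tendsto φ atTop atTop)
    (hb : ∀ᶠ k in atTop, ((φ k : ℕ) : ℝ) ^ 3 < ‖J (φ k)‖) :
    Tendsto (fun k : ℕ => (Complex.log (J (φ (k + 1)) / J (φ k))).im) atTop (𝓝 0) := by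
  have h2 := h.ne_of_big hφ hb
  have h3 := h.phase_tend hφ hb
  have h4 : Tendsto (fun k : ℕ => Complex.arg (J (φ (k + 1)) / J (φ k) /
      (‖J (φ (k + 1)) / J (φ k)‖ : ℂ))) atTop (𝓝 (Complex.arg 1)) :=
    (Complex.continuousAt_arg (by simp)).tendsto.comp h3
  rw [Complex.arg_one] at h4
  refine h4.congr' ?_
  filter_upwards [h2, (tendsto_add_atTop_nat 1).eventually h2] with N e1 e2
  rw [Complex.log_im]
  set z := J (φ (N + 1)) / J (φ N) with hz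
  have hz0 : z ≠ 0 := div_ne_zero e2.1 e1.1
  have hn : 0 < ‖z‖⁻¹ := inv_pos.2 (norm_pos_iff.2 hz0)
  have e : z / (‖z‖ : ℂ) = ((‖z‖⁻¹ : ℝ) : ℂ) * z := by
    push_cast
    rw [div_eq_mul_inv, mul_comm]
  rw [e, Complex.arg_real_mul _ hn]

end Pool.Agent.V11171.PP
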